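import Pool.Agent.Helper49.Tot.Transfer

/-!
# The Calabi-Yau varieties of Totaro do not lift modulo the square of the characteristic

Let `p` be a prime, `k` a perfect field of characteristic `p`, `N ≥ 4`, and let `X = P(F^* S)` be
the projective line bundle over the Grassmannian of planes in `N`-space (dimension `2 N - 3`).

* (A) If `Y` is an anticanonical divisor of `X` and `H^2(Y, O_Y) = 0`, then `Y` does not lift to the
  Witt vectors of length two.
* (B) If `p` is odd and `Y` is a double cover of `X`, then `Y` does not lift to the Witt vectors of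
  length two.
-/

open CategoryTheory AlgebraicGeometry

namespace Pool.Agent.Results.MP_0a69b6_ag.CalabiYauNoLift

universe u

theorem result : ∀ (p : ℕ) [Fact p.Prime] (k : Type u) [Field k] [CharP k p] [PerfectRing k p]
    (N : ℕ), 4 ≤ N → ∀ (X : Scheme.{u}) (s : X ⟶ Spec (.of k)), Totaro.RepFlags p N k X s →
    ∀ (Y : Scheme.{u}) (f : Y ⟶ X),
    (IsClosedImmersion f → Totaro.AntiDiv (2 * N - 3) s f → Totaro.HTwoZero Y →
      ¬ Totaro.LiftsTo (Totaro.WTwo p k) (Totaro.wres p k) Y (f ≫ s)) ∧
    (p ≠ 2 → IsAffineHom f → Totaro.DblCover f →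
      ¬ Totaro.LiftsTo (Totaro.WTwo p k) (Totaro.wres p k) Y (f ≫ s)) := by
  intro p _ k _ _ _ N hN X s h Y f
  obtain ⟨h'⟩ := Totaro.repFlags_represents h
  refine ⟨?_, ?_⟩
  · intro hf an hY
    obtain ⟨an'⟩ := Totaro.antiDiv_anti an
    exact Totaro.anti_no_lift h' hN (Totaro.wres_len2 p k) f an' (Totaro.hTwo_cech hY)
  · intro hp hf c
    obtain ⟨c'⟩ := Totaro.dblCover_double c
    exact Totaro.double_no_lift hp hN h' f c'

end Pool.Agent.Results.MP_0a69b6_ag.CalabiYauNoLift
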