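import Pool.Agent.Helper49.Tot.Transfer

/-!
# The Fano varieties of Totaro do not lift modulo the square of the characteristic

For every prime `p`, every perfect field `k` of characteristic `p` and every `N ≥ 4`, the variety
`X = P(F^* S)` over the Grassmannian of planes in `N`-space (the functor of pairs of a plane `W` and
a line `L` in the Frobenius pullback of `W`) does not lift to the Witt vectors of length two.
-/

open CategoryTheory AlgebraicGeometry

namespace Pool.Agent.Results.MP_0a69b6_ag.FanoNoLift

universe u

theorem result : ∀ (p : ℕ) [Fact p.Prime] (k : Type u) [Field k] [CharP k p] [PerfectRing k p]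
    (N : ℕ), 4 ≤ N → ∀ (X : Scheme.{u}) (s : X ⟶ Spec (.of k)), Totaro.RepFlags p N k X s →
      ¬ Totaro.LiftsTo (Totaro.WTwo p k) (Totaro.wres p k) X s := by
  intro p _ k _ _ _ N hN X s h
  obtain ⟨h'⟩ := Totaro.repFlags_represents h
  exact Totaro.X_no_lift hN h'

end Pool.Agent.Results.MP_0a69b6_ag.FanoNoLift
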